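import Pool.Agent.N86.Cqp

/-!
A non-zero categorical product monoid whose underlying monoid is finitely generated.
-/

set_option autoImplicit false

namespace Pool.Agent.Results.MP_eefcda_al.FinitelyGenerated

open Pool.Agent.N86.Cqp

/-- A categorical quasiproduct (CQP) structure on a monoid `M`: elements `π₁`, `π₂` and a function
`S : M × M → M` with `π₁ S(a, b) = a`, `π₂ S(a, b) = b` and `S(a, b) c = S(a c, b c)`. -/
structure CQP (M : Type*) [Monoid M] where
  S : M → M → M
  π₁ : M
  π₂ : M
  π₁_mul : ∀ a b : M, π₁ * S a b = a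
  π₂_mul : ∀ a b : M, π₂ * S a b = b
  S_mul : ∀ a b c : M, S a b * c = S (a * c) (b * c)

/-- There is a monoid `M` with at least two elements, generated by a finite set, and a CQP structure
on `M` which is even a categorical product structure, i.e. `S(π₁, π₂) = 1`. -/
theorem result : ∃ (M : Type) (_ : Monoid M) (C : CQP M),
    Nontrivial M ∧ C.S C.π₁ C.π₂ = 1 ∧
      ∃ G : Set M, G.Finite ∧ Submonoid.closure G = ⊤ := by
  refine ⟨M, inferInstance, {
    S := fun a b => ⟨prE a.1 b.1, pair_mem a.2 b.2⟩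
    π₁ := ⟨eF, fst_mem⟩
    π₂ := ⟨eG, snd_mem⟩
    π₁_mul := ?_
    π₂_mul := ?_
    S_mul := ?_ }, ⟨⟨_, _, ne_M⟩⟩, ?_, ?_⟩
  · intro a b
    apply Subtype.ext
    funext X
    exact fst_pr _ _
  · intro a b
    apply Subtype.ext
    funext X
    exact snd_pr _ _
  · intro a b c
    rfl
  · apply Subtype.ext
    funext X
    exact pr_fst_snd X
  · have h := fg_M
    rw [Monoid.fg_def, Submonoid.fg_iff] at h
    obtain ⟨G, hG, hfin⟩ := h
    exact ⟨G, hfin, hG⟩

end Pool.Agent.Results.MP_eefcda_al.FinitelyGenerated
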